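import Pool.Agent.Helper85.IA.Nib
import Pool.Agent.Helper57.IA.Brn
import Pool.Agent.Helper80.SY.M_SMO
import Pool.Agent.Helper10.SY.M_UB
import Pool.Agent.Helper57.SY.M_MAR
import Pool.Agent.Helper48.SY.M_CON
import Pool.Agent.Helper70.SY.M_CO2
import Pool.Agent.Helper69.SY.M_RT
import Pool.Agent.Helper86.SY.M_NAP
import Pool.Agent.Helper38.SY.M_CHN
import Pool.Agent.Helper73.SY.M_RND
import Pool.Agent.Helper99.SY.M_BAS
import Pool.Agent.Helper88.SY.M_IMP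
import Pool.Agent.Helper45.SY.M_STP
import Pool.Agent.Helper89.SY.M_FAS
import Pool.Agent.Helper5.SY.M_ORD
import Pool.Agent.Helper63.SY.M_CHV
import Pool.Agent.Helper9.SY.M_PRM
import Pool.Agent.Helper26.SY.M_INV
import Pool.Agent.Helper13.SY.M_HLF
import Pool.Agent.Helper74.SY.M_FIN
import Pool.Agent.Helper40.SY.M_STR

/-!
# Project SY: assembly
-/

set_option autoImplicit false

namespace Pool.Agent.Helper30.SY

open Finset

theorem rtp : RTP := fun L θ η h1 h2 h3 h4 h5 =>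
  Pool.Agent.Helper69.SY.hRT Pool.Agent.Helper57.IA.hBRN Pool.Agent.Helper10.SY.hUB
    Pool.Agent.Helper57.SY.hMAR Pool.Agent.Helper48.SY.hCON Pool.Agent.Helper70.SY.hCO2
    L θ η h1 h2 h3 h4 h5

theorem rndp : RNDP := fun L ε hL hε =>
  Pool.Agent.Helper73.SY.hRND Pool.Agent.Helper80.SY.hSMO
    (fun L θ g h1 h2 h3 h4 => Pool.Agent.Helper86.SY.hNAP Pool.Agent.Helper85.IA.hNIB rtp
      L θ g h1 h2 h3 h4) Pool.Agent.Helper38.SY.hCHN L ε hL hε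

theorem stp : ∀ ξ : ℝ, 0 < ξ → ∃ (δ : ℝ) (n0 : ℕ), 0 < δ ∧ ∀ n : ℕ, n0 ≤ n →
    ∀ T T' : Fin n → Fin n → Prop, Pool.Agent.Helper40.TI.IsTour T →
      Pool.Agent.Helper40.TI.IsTour T' →
      (∀ v, ∑ u, Pool.Agent.Helper40.TI.dif T T' v u = 0) →
      (∃ k : ℕ, Pool.Agent.Helper40.TI.Steps k T T' ∧ (k : ℝ) ≤ (1 / 4 - δ) * (n : ℝ) ^ 2) ∨
      (∃ k : ℕ, Pool.Agent.Helper40.TI.Steps k T T' ∧
        (mis (Pool.Agent.Helper40.TI.dif T T') : ℝ) ≤ ξ * (n : ℝ) ^ 2 ∧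
        nW (Pool.Agent.Helper40.TI.dif T T') ≤ ξ * (n : ℝ) ^ 4) :=
  Pool.Agent.Helper45.SY.hSTP rndp
    (fun n s h1 hc => Pool.Agent.Helper88.SY.hIMP Pool.Agent.Helper99.SY.hBAS n s h1 hc)

theorem strp : STRP :=
  Pool.Agent.Helper40.SY.hSTR
    (fun ε hε => Pool.Agent.Helper5.SY.hORD Pool.Agent.Helper89.SY.hFAS ε hε)
    Pool.Agent.Helper63.SY.hCHV Pool.Agent.Helper26.SY.hINV Pool.Agent.Helper13.SY.hHLF
    Pool.Agent.Helper9.SY.hPRM Pool.Agent.Helper74.SY.hFIN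

end Pool.Agent.Helper30.SY
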