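import Pool.Agent.Helper93.IA.St0
import Pool.Agent.Helper40.TI.Flow2
import Pool.Agent.Helper40.TI.Frac

/-!
# Project SY (MP_2d701a_co): stability of the diameter of tournament interchange graphs

`s = dif T T'` is a skew circulation with values `-1, 0, 1`. `fl X u v` is the flow of the real
2-chain `X` through the ordered pair `(u, v)`; `X a b c` is the weight of the oriented triangle
`a → b → c → a` (all ordered triples, so every oriented triangle occurs three times).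

Part R (rounding): every bounded fractional filling can be made integral at cost `ε n^2`.
Part W (improvement): 4-sets with a vertex that dominates, or is dominated by, a cyclic triangle.
Part S (structure): few such 4-sets and few missing pairs imply the circular order.
-/

set_option autoImplicit false

namespace Pool.Agent.Helper30.SY

open Finset Pool.Agent.Helper93.IA

/-- Skew circulations with values `-1, 0, 1`. -/
structure Circ {n : ℕ} (s : Fin n → Fin n → ℤ) : Prop where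
  v1 : ∀ u v, s u v = -1 ∨ s u v = 0 ∨ s u v = 1
  sk : ∀ u v, s u v = - s v u
  row : ∀ v, ∑ u, s v u = 0

/-- The flow of `X` through the ordered pair `(u, v)`. -/
def fl {n : ℕ} (X : Fin n → Fin n → Fin n → ℝ) (u v : Fin n) : ℝ :=
  ∑ w, (X u v w + X w u v + X v w u)

/-- A bounded fractional filling of `s`. -/
structure Fill {n : ℕ} (s : Fin n → Fin n → ℤ) (X : Fin n → Fin n → Fin n → ℝ) (L : ℝ) :
    Prop where
  nn : ∀ a b c, 0 ≤ X a b c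
  ub : ∀ a b c, X a b c ≤ L / n
  sp : ∀ a b c, X a b c ≠ 0 → a ≠ b ∧ b ≠ c ∧ c ≠ a
  bd : ∀ u v, u ≠ v → fl X u v - fl X v u = s u v
  mn : ∀ u v, fl X u v ≤ 3 / 2 ∨ fl X v u ≤ 3 / 2

/-- A symmetric filling bounded below. -/
structure SFill {n : ℕ} (s : Fin n → Fin n → ℤ) (X : Fin n → Fin n → Fin n → ℝ) (L θ : ℝ) :
    Prop where
  nn : ∀ a b c, 0 ≤ X a b c
  ub : ∀ a b c, X a b c ≤ L / n
  sp : ∀ a b c, X a b c ≠ 0 → a ≠ b ∧ b ≠ c ∧ c ≠ a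
  cy : ∀ a b c, X a b c = X b c a
  lb : ∀ a b c, a ≠ b → b ≠ c → c ≠ a → θ / n ≤ X a b c
  bd : ∀ u v, u ≠ v → fl X u v - fl X v u = s u v
  mn : ∀ u v, fl X u v ≤ 7 / 4 ∨ fl X v u ≤ 7 / 4

/-! ## Part R -/

/-- SMO. `X' a b c = (X a b c + X b c a + X c a b)/3 + θ/n` for distinct `a, b, c`, and `0`
otherwise. For `u ≠ v`: `fl X' u v = fl X u v + 3 θ (n-2)/n` (the sum over `w` of
`3 * (X u v w + X v w u + X w u v)/3`, the terms with `w = u` or `w = v` being zero by `sp`);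
`3/2 + 3 θ ≤ 7/4`. -/
def StSMO : Prop :=
  ∀ (n : ℕ) (s : Fin n → Fin n → ℤ) (X : Fin n → Fin n → Fin n → ℝ) (L θ : ℝ), 1 ≤ n →
    0 < θ → θ ≤ 1 / 12 → Fill s X L →
    ∃ X' : Fin n → Fin n → Fin n → ℝ, SFill s X' (L + 1) θ ∧
      ∑ a, ∑ b, ∑ c, X' a b c ≤ ∑ a, ∑ b, ∑ c, X a b c + θ * (n : ℝ) ^ 2

/-- The state space of one unordered pair: the type of the real arc and three bits. -/
abbrev Sta : Type := Fin 3 × (Fin 3 → Bool)

/-- The probability of a state; the bits are true with probability `y`. -/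
noncomputable def pr (y : ℝ) (u : Sta) : ℝ := 1 / 3 * ∏ i, (if u.2 i then y else 1 - y)

/-- The parameter of the pair `p`. -/
noncomputable def yy {n : ℕ} (s : Fin n → Fin n → ℤ) (X : Fin n → Fin n → Fin n → ℝ)
    (p : Fin n × Fin n) : ℝ :=
  if s p.1 p.2 = 0 then fl X p.1 p.2 / 3 else min (fl X p.1 p.2) (fl X p.2 p.1) / 2

/-- Is an ordered pair with sign `z` in the edge set of type `τ`? -/
def iv (z : ℤ) (u : Sta) (τ : Fin 3) : ℝ :=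
  if z = 1 then (if τ = u.1 ∨ u.2 τ = true then 1 else 0)
  else if z = -1 then (if τ ≠ u.1 ∧ u.2 τ = true then 1 else 0)
  else (if u.2 τ = true then 1 else 0)

/-- The coordinate of the pair `{a, b}`. -/
def co {n : ℕ} (a b : Fin n) : Fin n × Fin n := if a < b then (a, b) else (b, a)

/-- The indicator of `(a, b)` in the edge set of type `τ`. -/
def ms {n : ℕ} (s : Fin n → Fin n → ℤ) (σ : Fin n × Fin n → Sta) (τ : Fin 3) (a b : Fin n) : ℝ :=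
  if a = b then 0 else iv (s a b) (σ (co a b)) τ

/-- UB (union bound). `∑ j, 1[bad j]` has expectation `< 1`; `Ex w` is an average
(`Ex w 1 = ∏ i, ∑ u, w i u = 1`, `Finset.prod_univ_sum`). -/
def StUB : Prop :=
  ∀ (ι : Type) [Fintype ι] [DecidableEq ι] (κ : Type) [Fintype κ] [DecidableEq κ]
    (w : ι → κ → ℝ) (J : Type) [Fintype J] (f : J → (ι → κ) → ℝ) (t r : J → ℝ),
    (∀ i u, 0 ≤ w i u) → (∀ i, ∑ u, w i u = 1) →
    (∀ j, Ex w (fun σ => if Ex w (f j) + t j ≤ f j σ then 1 else 0) ≤ r j) → ∑ j, r j < 1 →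
    ∃ σ : ι → κ, ∀ j, f j σ < Ex w (f j) + t j

/-- MAR (marginals). (i) weights: `pr y ≥ 0`, `∑ u, pr y u = 1` for `0 ≤ y ≤ 1`, and
`0 ≤ yy ≤ 1`. (ii) for `a ≠ b` the mean of `ms τ a b` is `fl X a b / 3`: for `s a b = 1` it is
`1/3 + 2/3 y` with `y = fl X b a / 2`, for `s a b = -1` it is `2/3 y` with `y = fl X a b / 2`
(`bd`: `fl X a b - fl X b a = s a b`), for `s a b = 0` it is `y = fl X a b / 3`. (iii) the coordinates
`co b c` and `co c a` are different for distinct `a, b, c`, so the mean of the product is the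
product of the means. -/
def StMAR : Prop :=
  ∀ (n : ℕ) (s : Fin n → Fin n → ℤ) (X : Fin n → Fin n → Fin n → ℝ) (L θ : ℝ), 0 < θ → Circ s →
    SFill s X L θ →
    (∀ (p : Fin n × Fin n) (u : Sta), 0 ≤ pr (yy s X p) u) ∧
    (∀ p : Fin n × Fin n, ∑ u : Sta, pr (yy s X p) u = 1) ∧
    (∀ (a b : Fin n) (τ : Fin 3), a ≠ b →
      Ex (fun p : Fin n × Fin n => pr (yy s X p)) (fun σ => ms s σ τ a b) = fl X a b / 3) ∧
    ∀ (a b c : Fin n) (τ τ' : Fin 3), a ≠ b → b ≠ c → c ≠ a →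
      Ex (fun p : Fin n × Fin n => pr (yy s X p)) (fun σ => ms s σ τ b c * ms s σ τ' c a)
        = fl X b c / 3 * (fl X c a / 3)

/-- CON (concentration of the weighted degree of a pair). BRN with `c = G/n`: changing the
coordinate `p` changes `F` only if `p` contains exactly one of `x, y`, and then only one term
(the terms `c = x`, `c = y` vanish), by at most `G/n`; `v p = (G/n)^2` for the `p` with one entry in
`{x, y}`, `0` otherwise, `∑ v ≤ 4 n (G/n)^2 = 4 G^2/n`. `l = λ n` with `λ = min (1/G) (η/(8 G^2))`: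
`-l η + l^2 4 G^2/n ≤ - λ η n/2`, and `exp (-λ η n/2) ≤ 1/(20 n^2)` for large `n`. -/
def StCON : Prop :=
  StBRN → ∀ G η : ℝ, 0 < G → 0 < η → ∃ n0 : ℕ, ∀ n : ℕ, n0 ≤ n →
    ∀ (s : Fin n → Fin n → ℤ) (w : Fin n × Fin n → Sta → ℝ) (x y : Fin n) (g : Fin n → ℝ)
      (τ τ' : Fin 3), (∀ p u, 0 ≤ w p u) → (∀ p, ∑ u, w p u = 1) → x ≠ y →
      (∀ c, |g c| ≤ G / n) → g x = 0 → g y = 0 →
      Ex w (fun σ => if Ex w (fun σ' => ∑ c, g c * (ms s σ' τ y c * ms s σ' τ' c x)) + η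
        ≤ ∑ c, g c * (ms s σ τ y c * ms s σ τ' c x) then 1 else 0) ≤ 1 / (20 * (n : ℝ) ^ 2)

/-- CO2 (concentration of the number of edges). BRN with `c = 2`, `v = 4`, `∑ v ≤ 4 n^2`,
`t = η n^2`, `l = η/8` (`η ≤ 1`): `exp (-η^2 n^2/16) ≤ 1/4` for large `n`. One coordinate occurs in
`ms τ a b` and `ms τ b a` only. -/
def StCO2 : Prop :=
  StBRN → ∀ η : ℝ, 0 < η → η ≤ 1 → ∃ n0 : ℕ, ∀ n : ℕ, n0 ≤ n →
    ∀ (s : Fin n → Fin n → ℤ) (w : Fin n × Fin n → Sta → ℝ) (τ : Fin 3),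
      (∀ p u, 0 ≤ w p u) → (∀ p, ∑ u, w p u = 1) →
      Ex w (fun σ => if Ex w (fun σ' => ∑ a, ∑ b, ms s σ' τ a b) + η * (n : ℝ) ^ 2
        ≤ ∑ a, ∑ b, ms s σ τ a b then 1 else 0) ≤ 1 / 4

/-- The weight of the triangle `a → b → c → a`, normalised. -/
noncomputable def wt {n : ℕ} (X : Fin n → Fin n → Fin n → ℝ) (a b c : Fin n) : ℝ :=
  27 * X a b c / (fl X a b * fl X b c * fl X c a)

/-- The result of the random choice: edge sets of the three types. -/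
structure Types {n : ℕ} (s : Fin n → Fin n → ℤ) (X : Fin n → Fin n → Fin n → ℝ) (η : ℝ)
    (A B C : Finset (Fin n × Fin n)) : Prop where
  dA : ∀ u, (u, u) ∉ A
  dB : ∀ u, (u, u) ∉ B
  dC : ∀ u, (u, u) ∉ C
  net : ∀ u v, u ≠ v → ((if (u, v) ∈ A then 1 else 0) + (if (u, v) ∈ B then 1 else 0) +
    (if (u, v) ∈ C then 1 else 0) : ℤ) - ((if (v, u) ∈ A then 1 else 0) +
    (if (v, u) ∈ B then 1 else 0) + (if (v, u) ∈ C then 1 else 0)) = s u v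
  card : (A.card : ℝ) ≤ ∑ a, ∑ b, ∑ c, X a b c + η * (n : ℝ) ^ 2
  sA : ∀ a b, a ≠ b →
    |∑ c, (if (b, c) ∈ B ∧ (c, a) ∈ C then wt X a b c else 0) - 1| ≤ η
  sB : ∀ b c, b ≠ c →
    |∑ a, (if (a, b) ∈ A ∧ (c, a) ∈ C then wt X a b c else 0) - 1| ≤ η
  sC : ∀ c a, c ≠ a →
    |∑ b, (if (a, b) ∈ A ∧ (b, c) ∈ B then wt X a b c else 0) - 1| ≤ η

/-- RT (random types). Weights `pr (yy s X p)`; `A, B, C` = the pairs `(a, b)` with
`ms s σ τ a b = 1`, `τ = 0, 1, 2` (the values of `ms` are `0` and `1`). For symmetric `X`,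
`fl X a b = 3 ∑ c, X a b c ≥ 3 θ (n-2)/n ≥ θ` for `a ≠ b`, `n ≥ 3`, so `0 ≤ wt ≤ (27 L/θ^3)/n =: G/n`
and, by MAR, the mean of `∑ c, wt X a b c * (ms 1 b c * ms 2 c a)` is
`∑ c, 27 X a b c/(9 fl X a b) = 1`. `sB`: `y = c`, `x = b`: `∑ a, wt X a b c * (ms 2 c a * ms 0 a b)`;
`sC`: `y = a`, `x = c`: `∑ b, wt X a b c * (ms 0 a b * ms 1 b c)`. UB with the `6 n^2` events of
CON (`g = wt` and `g = -wt`) and the one of CO2: `6/20 + 1/4 < 1`. Mean of the number of edges of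
type `0`: `∑_{a ≠ b} fl X a b/3 = ∑ X` (each of the three sums in `fl` gives `∑ X`; terms `a = b` are
zero by `sp`). `net`: `∑ τ, (iv z u τ - iv (-z) u τ) = z` for `z = -1, 0, 1`, and `co u v = co v u`
for `u ≠ v`. -/
def StRT : Prop :=
  StBRN → StUB → StMAR → StCON → StCO2 →
  ∀ L θ η : ℝ, 0 < L → 0 < θ → θ ≤ 1 → 0 < η → η ≤ 1 → ∃ n0 : ℕ, ∀ n : ℕ, n0 ≤ n →
    ∀ (s : Fin n → Fin n → ℤ) (X : Fin n → Fin n → Fin n → ℝ), Circ s → SFill s X L θ →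
      ∃ A B C : Finset (Fin n × Fin n), Types s X η A B C

/-- The conclusion of RT. -/
def RTP : Prop :=
  ∀ L θ η : ℝ, 0 < L → 0 < θ → θ ≤ 1 → 0 < η → η ≤ 1 → ∃ n0 : ℕ, ∀ n : ℕ, n0 ≤ n →
    ∀ (s : Fin n → Fin n → ℤ) (X : Fin n → Fin n → Fin n → ℝ), Circ s → SFill s X L θ →
      ∃ A B C : Finset (Fin n × Fin n), Types s X η A B C

/-- An approximate packing. -/
structure AP {n : ℕ} (s : Fin n → Fin n → ℤ) (X : Fin n → Fin n → Fin n → ℝ) (g : ℝ)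
    (A B C : Finset (Fin n × Fin n)) (P : Finset (Fin n × Fin n × Fin n)) : Prop where
  dA : ∀ u, (u, u) ∉ A
  dB : ∀ u, (u, u) ∉ B
  dC : ∀ u, (u, u) ∉ C
  net : ∀ u v, u ≠ v → ((if (u, v) ∈ A then 1 else 0) + (if (u, v) ∈ B then 1 else 0) +
    (if (u, v) ∈ C then 1 else 0) : ℤ) - ((if (v, u) ∈ A then 1 else 0) +
    (if (v, u) ∈ B then 1 else 0) + (if (v, u) ∈ C then 1 else 0)) = s u v
  card : (A.card : ℝ) ≤ ∑ a, ∑ b, ∑ c, X a b c + g * (n : ℝ) ^ 2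
  pack : Pack A B C P
  smA : Sm (A \ P.image eA) (g * n)
  smB : Sm (B \ P.image eB) (g * n)
  smC : Sm (C \ P.image eC) (g * n)

/-- NAP (the nibble applied). `StNIB` with `Λ = 27 L/θ^3` and `g` gives `δ`; RT with
`η = min (δ/2) (min g 1)`; `x a b c = wt X a b c/(1+η)` if `(a,b) ∈ A`, `(b,c) ∈ B`, `(c,a) ∈ C`, else `0`.
For `(a,b) ∈ A` (so `a ≠ b`) the sum over `c` is between `(1-η)/(1+η) ≥ 1 - 2 η ≥ 1 - δ` and `1`;
`wt ≤ Λ/n` as in RT (`fl ≥ θ` for `n ≥ 3`). -/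
def StNAP : Prop :=
  StNIB → RTP → ∀ L θ g : ℝ, 0 < L → 0 < θ → θ ≤ 1 → 0 < g → ∃ n0 : ℕ, ∀ n : ℕ, n0 ≤ n →
    ∀ (s : Fin n → Fin n → ℤ) (X : Fin n → Fin n → Fin n → ℝ), Circ s → SFill s X L θ →
      ∃ (A B C : Finset (Fin n × Fin n)) (P : Finset (Fin n × Fin n × Fin n)), AP s X g A B C P

/-- An integral filling of cost at most `K`. -/
def IFill {n : ℕ} (s : Fin n → Fin n → ℤ) (K : ℝ) : Prop :=
  ∃ Y : Fin n → Fin n → Fin n → ℤ, (∀ a b c, Y a b c ≠ 0 → a ≠ b ∧ b ≠ c ∧ c ≠ a) ∧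
    (∀ u v, Pool.Agent.Helper40.TI.bd Y u v = s u v) ∧
    ((∑ a, ∑ b, ∑ c, |Y a b c| : ℤ) : ℝ) ≤ K

/-- CHN (the integral chain). `Z a b c = 1` for `(a,b,c) ∈ P`, else `0`; `∑ Z = |P| ≤ |A|` (`iA`).
`bd Z u v = ∑_τ (1[(u,v) ∈ τ covered] - 1[(v,u) ∈ τ covered])` (by `iA, iB, iC` every edge is covered at
most once; `∑ w, Z u v w = 1[(u,v) ∈ P.image eA]`, `∑ w, Z w u v = 1[(u,v) ∈ P.image eB]`,
`∑ w, Z v w u = 1[(u,v) ∈ P.image eC]`), so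
`E = s - bd Z` is, by `net`, the sum over `τ` of `1[(u,v) ∈ τ uncovered] - 1[(v,u) ∈ τ uncovered]`:
`∑∑ |E| ≤ 2 (|A \ ..| + |B \ ..| + |C \ ..|) ≤ 6 g n^2`. `E` is skew with zero column sums (`s` has zero
rows, and so has `bd Z`: `∑ v, bd Z u v = 0`). `Helper40.TI.cone` gives `φ` with
`bf φ = E` and `2 ∑ max φ 0 ≤ ∑∑ |E|`; `Y = Z + (fun a x b => max (φ x a b) 0)`, `bd` is additive,
`bd_max`. (`cone` needs `Nonempty`; for `n = 0` everything is trivial.) -/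
def StCHN : Prop :=
  ∀ (n : ℕ) (s : Fin n → Fin n → ℤ) (X : Fin n → Fin n → Fin n → ℝ) (g : ℝ)
    (A B C : Finset (Fin n × Fin n)) (P : Finset (Fin n × Fin n × Fin n)), 0 ≤ g → Circ s →
    AP s X g A B C P → IFill s (∑ a, ∑ b, ∑ c, X a b c + 4 * g * (n : ℝ) ^ 2)

/-- RND (rounding theorem). SMO with `θ = min (1/12) (ε/2)`, NAP with `L + 1` and `g = ε/8`, CHN. -/
def StRND : Prop :=
  StSMO → (∀ L θ g : ℝ, 0 < L → 0 < θ → θ ≤ 1 → 0 < g → ∃ n0 : ℕ, ∀ n : ℕ, n0 ≤ n →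
    ∀ (s : Fin n → Fin n → ℤ) (X : Fin n → Fin n → Fin n → ℝ), Circ s → SFill s X L θ →
      ∃ (A B C : Finset (Fin n × Fin n)) (P : Finset (Fin n × Fin n × Fin n)),
        AP s X g A B C P) → StCHN →
  ∀ L ε : ℝ, 0 < L → 0 < ε → ∃ n0 : ℕ, ∀ n : ℕ, n0 ≤ n →
    ∀ (s : Fin n → Fin n → ℤ) (X : Fin n → Fin n → Fin n → ℝ), Circ s → Fill s X L →
      IFill s (∑ a, ∑ b, ∑ c, X a b c + ε * (n : ℝ) ^ 2)

/-! ## Part W -/

/-- `z` dominates the cyclic triangle `a → b → c → a`. -/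
abbrev WT {n : ℕ} (s : Fin n → Fin n → ℤ) (z a b c : Fin n) : Prop :=
  s z a = 1 ∧ s z b = 1 ∧ s z c = 1 ∧ s a b = 1 ∧ s b c = 1 ∧ s c a = 1

/-- `z` is dominated by the cyclic triangle `a → b → c → a`. -/
abbrev LT' {n : ℕ} (s : Fin n → Fin n → ℤ) (z a b c : Fin n) : Prop :=
  s a z = 1 ∧ s b z = 1 ∧ s c z = 1 ∧ s a b = 1 ∧ s b c = 1 ∧ s c a = 1

/-- The number of ordered quadruples `(z, a, b, c)` of both kinds. -/
def nW {n : ℕ} (s : Fin n → Fin n → ℤ) : ℝ :=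
  ∑ z, ∑ a, ∑ b, ∑ c, ((if WT s z a b c then (1 : ℝ) else 0) +
    (if LT' s z a b c then (1 : ℝ) else 0))

/-- The outdegree. -/
def od {n : ℕ} (s : Fin n → Fin n → ℤ) (v : Fin n) : ℕ := (univ.filter fun u => s v u = 1).card

/-- The average cone. -/
noncomputable def X0 {n : ℕ} (s : Fin n → Fin n → ℤ) (a b c : Fin n) : ℝ :=
  (Pool.Agent.Helper40.TI.cpos s a b c : ℝ) / (3 * n)

/-- BAS. `0 ≤ cpos ≤ 3`; `bd` is `curl_fill`. For `s u v = 1`: `cpos s v u w ≤ 1` (`curl s v u w =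
-1 + s u w + s w v`), so `fl (X0 s) v u ≤ 1` (`cpos` is invariant under rotation, so
`fl (X0 s) u v = ∑ w, cpos s u v w/n`). For `s u v = 0`, `u ≠ v`: `max (s v w + s w u) 0 ≤ 1[s v w = 1] + 1[s w u = 1]`
and `od v ≤ (n-1)/2`, the same for indegrees (`row`: outdegree = indegree, their sum is at most
`n-1`), so `fl ≤ 1`. For `u = v` `fl = 0`. SUM: `∑ cpos ≤ 3 ∑ v, ∑ u, ∑ w, G v u w`,
`G v u w = if distinct then gg s v u w else 0`, as in the proof of `sum_curl_le`, and `sum_gg`. -/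
def StBAS : Prop :=
  ∀ (n : ℕ) (s : Fin n → Fin n → ℤ), 1 ≤ n → Circ s →
    (∀ a b c, 0 ≤ X0 s a b c) ∧ (∀ a b c, X0 s a b c ≤ 1 / n) ∧
    (∀ a b c, X0 s a b c ≠ 0 → a ≠ b ∧ b ≠ c ∧ c ≠ a) ∧
    (∀ u v, u ≠ v → fl (X0 s) u v - fl (X0 s) v u = s u v) ∧
    (∀ u v, fl (X0 s) u v ≤ 1 ∨ fl (X0 s) v u ≤ 1) ∧
    (∀ a b c, s a b = 1 → s b c = 1 → s a c = 1 → X0 s a b c = 1 / (3 * n)) ∧
    ∑ a, ∑ b, ∑ c, X0 s a b c ≤ (∑ v, (od s v : ℝ) * ((n : ℝ) - 1 - od s v)) / n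

/-- IMP. With `t = 1/(18 n^2)`:
`X x y w = X0 s x y w + t ∑ z, (1[WT z x y w] + 1[LT' z x y w]) - 3 t ∑ z, (1[WT x y w z] + 1[LT' w x y z])`.
If one of the last two indicators is not `0` then `s x y = s y w = s x w = 1` and `X0 = 1/(3n) ≥ 3 t (2 n)`:
`X ≥ 0`. `X ≤ 1/n + 2 n t ≤ 2/n`. FLOWS: with `WT z a b c ↔ WT z b c a` (and `LT'`) the terms with `z`
summed cancel: `fl X u v = fl X0 u v - 3 t ∑ w, ∑ z, (WT u v w z + WT v w u z + LT' v w u z + LT' u v w z)`;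
the sum is nonnegative and symmetric in `u, v` (rename and rotate), so `bd` holds and `fl X ≤ fl X0`.
TOTAL: `∑ X = ∑ X0 + t nW - 3 t nW`. -/
def StIMP : Prop :=
  StBAS → ∀ (n : ℕ) (s : Fin n → Fin n → ℤ), 1 ≤ n → Circ s →
    ∃ X : Fin n → Fin n → Fin n → ℝ, Fill s X 2 ∧
      ∑ a, ∑ b, ∑ c, X a b c ≤ (∑ v, (od s v : ℝ) * ((n : ℝ) - 1 - od s v)) / n -
        nW s / (9 * (n : ℝ) ^ 2)

/-- The conclusion of RND. -/
def RNDP : Prop :=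
  ∀ L ε : ℝ, 0 < L → 0 < ε → ∃ n0 : ℕ, ∀ n : ℕ, n0 ≤ n →
    ∀ (s : Fin n → Fin n → ℤ) (X : Fin n → Fin n → Fin n → ℝ), Circ s → Fill s X L →
      IFill s (∑ a, ∑ b, ∑ c, X a b c + ε * (n : ℝ) ^ 2)

/-- The number of ordered pairs of different vertices without arc. -/
def mis {n : ℕ} (s : Fin n → Fin n → ℤ) : ℕ :=
  (univ.filter fun p : Fin n × Fin n => p.1 ≠ p.2 ∧ s p.1 p.2 = 0).card

/-- STP. `dif T T'` is a circulation (hypothesis `hrow`), IMP, RND with `L = 2`, `steps_of_chain`: `k`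
steps, `k ≤ (∑ v, od v (n-1-od v))/n - nW/(9 n^2) + ε n^2`. If `k > (1/4 - δ) n^2`: with
`m v = n - 1 - 2 od v ≥ 0`, `od v (n-1-od v) = ((n-1)^2 - (m v)^2)/4 ≤ (n^2 - (m v)^2)/4`, so
`∑ (m v)^2/(4n) + nW/(9 n^2) ≤ (δ + ε) n^2`; `mis = ∑ m v ≤ sqrt (n ∑ (m v)^2) ≤ 2 sqrt (δ+ε) n^2` and
`nW ≤ 9 (δ+ε) n^4`. Take `ε = δ` with `2 sqrt (2 δ) ≤ ξ`, `18 δ ≤ ξ`. -/
def StSTP : Prop :=
  RNDP → (∀ (n : ℕ) (s : Fin n → Fin n → ℤ), 1 ≤ n → Circ s →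
    ∃ X : Fin n → Fin n → Fin n → ℝ, Fill s X 2 ∧
      ∑ a, ∑ b, ∑ c, X a b c ≤ (∑ v, (od s v : ℝ) * ((n : ℝ) - 1 - od s v)) / n -
        nW s / (9 * (n : ℝ) ^ 2)) →
  ∀ ξ : ℝ, 0 < ξ → ∃ (δ : ℝ) (n0 : ℕ), 0 < δ ∧ ∀ n : ℕ, n0 ≤ n →
    ∀ T T' : Fin n → Fin n → Prop, Pool.Agent.Helper40.TI.IsTour T →
      Pool.Agent.Helper40.TI.IsTour T' →
      (∀ v, ∑ u, Pool.Agent.Helper40.TI.dif T T' v u = 0) →
      (∃ k : ℕ, Pool.Agent.Helper40.TI.Steps k T T' ∧ (k : ℝ) ≤ (1 / 4 - δ) * (n : ℝ) ^ 2) ∨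
      (∃ k : ℕ, Pool.Agent.Helper40.TI.Steps k T T' ∧
        (mis (Pool.Agent.Helper40.TI.dif T T') : ℝ) ≤ ξ * (n : ℝ) ^ 2 ∧
        nW (Pool.Agent.Helper40.TI.dif T T') ≤ ξ * (n : ℝ) ^ 4)

end Pool.Agent.Helper30.SY
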