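import Pool.Agent.Helper30.SY.St

/-!
# Project SY, part S (structure): few 4-sets with a dominating or dominated vertex
-/

set_option autoImplicit false

namespace Pool.Agent.Helper30.SY

open Finset

/-- The number of ordered cyclic triples in `S`. -/
def c3 {n : ℕ} (r : Fin n → Fin n → ℤ) (S : Finset (Fin n)) : ℕ :=
  ((S ×ˢ S ×ˢ S).filter fun p => r p.1 p.2.1 = 1 ∧ r p.2.1 p.2.2 = 1 ∧ r p.2.2 p.1 = 1).card

/-- The number of pairs of `S`, increasing for `ρ`, that are not arcs. -/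
def bw {n : ℕ} (r : Fin n → Fin n → ℤ) (S : Finset (Fin n)) (ρ : Fin n → ℕ) : ℕ :=
  ((S ×ˢ S).filter fun p => ρ p.1 < ρ p.2 ∧ r p.1 p.2 ≠ 1).card

/-- The rank of `x` in `S`. -/
def rk {n : ℕ} (S : Finset (Fin n)) (ρ : Fin n → ℕ) (x : Fin n) : ℕ :=
  (S.filter fun y => ρ y < ρ x).card

/-- `j - i` is between `1` and `(n-1)/2` modulo `n`. -/
def circ {n : ℕ} (i j : Fin n) : Prop :=
  0 < (n + j.val - i.val) % n ∧ 2 * ((n + j.val - i.val) % n) < n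

instance {n : ℕ} (i j : Fin n) : Decidable (circ i j) := by unfold circ; infer_instance

/-- FAS. Induction on `l`. If `|S| ≤ h` take `ρ = Fin.val`: at most `|S|^2 ≤ |S| h` pairs. Otherwise
`m = |S| > h ≥ 6`. PIVOT: at most `m/4 + 1` vertices of `S` have outdegree `< m/8` in `S` (`t` of them span
a tournament, one of them has outdegree at least `(t-1)/2` in it), the same for indegrees; so at
least `m/2 - 2 ≥ m/6` vertices have both degrees `≥ m/8`; one of these, `v`, has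
`c_v ≤ 6 c3/m`, `c_v` = number of `(y, z) ∈ S × S` with `r v y = r y z = r z v = 1` (`∑_v c_v = c3`).
`S₁ = {x ∈ S : r x v = 1}`, `S₂ = {x ∈ S : r v x = 1}` have at most `7 m/8 ≤ (8/7)^(l-1) h` elements. Orders `ρ₁`, `ρ₂`
by induction; `ρ = ρ₁` on `S₁`, `M` at `v`, `M + 1 + ρ₂` on `S₂`, `M > ρ₁` on `S₁`. The pairs `x ∈ S₁`, `y ∈ S₂` which
are not arcs have `r y x = 1`, so `(y, x)` is counted by `c_v`. Total at most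
`(|S₁| + |S₂|) h + 9 (l-1) (c3 S₁ + c3 S₂)/h + 6 c3/h`, and `c3 S₁ + c3 S₂ ≤ c3 S`. -/
def StFAS : Prop :=
  ∀ (n : ℕ) (r : Fin n → Fin n → ℤ) (h : ℝ) (l : ℕ) (S : Finset (Fin n)),
    (∀ x y, r x y = - r y x) → (∀ x y, x ≠ y → r x y = 1 ∨ r x y = -1) → 6 ≤ h →
    (S.card : ℝ) ≤ (8 / 7 : ℝ) ^ l * h →
    ∃ ρ : Fin n → ℕ, (∀ x ∈ S, ∀ y ∈ S, ρ x = ρ y → x = y) ∧
      (bw r S ρ : ℝ) ≤ S.card * h + 9 * l * c3 r S / h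

/-- ORD. `r x y = s x y` if this is not `0`, else `1` for `x < y`, `-1` for `y < x`.
`c3 r S ≤ c3 s S + 3 n mis ≤ 4 ξ n^3`; `bw s S ρ ≤ bw r S ρ + mis`. FAS with `h = ε n/4` (`≥ 6` for large `n`),
`l ≥ 1` with `(8/7)^l ≥ 4/ε`; `n h + 9 l * 4 ξ n^3/h + ξ n^2 ≤ ε n^2` for `ξ` small. -/
def StORD : Prop :=
  StFAS → ∀ ε : ℝ, 0 < ε → ∃ (ξ : ℝ) (n0 : ℕ), 0 < ξ ∧ ∀ n : ℕ, n0 ≤ n →
    ∀ (s : Fin n → Fin n → ℤ) (S : Finset (Fin n)), Circ s → (c3 s S : ℝ) ≤ ξ * (n : ℝ) ^ 3 →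
      (mis s : ℝ) ≤ ξ * (n : ℝ) ^ 2 →
      ∃ ρ : Fin n → ℕ, (∀ x ∈ S, ∀ y ∈ S, ρ x = ρ y → x = y) ∧
        (bw s S ρ : ℝ) ≤ ε * (n : ℝ) ^ 2

/-- Out- and in-neighbourhoods. -/
def ON {n : ℕ} (s : Fin n → Fin n → ℤ) (v : Fin n) : Finset (Fin n) := univ.filter fun x => s v x = 1

def IN {n : ℕ} (s : Fin n → Fin n → ℤ) (v : Fin n) : Finset (Fin n) := univ.filter fun x => s x v = 1

/-- The number of `(u, a, w)` such that `u` dominates the cyclic triangle `v → a → w → v`. -/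
def wv {n : ℕ} (s : Fin n → Fin n → ℤ) (v : Fin n) : ℕ :=
  (univ.filter fun p : Fin n × Fin n × Fin n => WT s p.1 v p.2.1 p.2.2).card

/-- CHV (a good vertex). `|ON| = |IN|` by `row`. With `m v = n - 1 - |ON| - |IN|`, `∑ m v = mis`;
`c3 s (ON s v) = ∑_{abc} 1[WT s v a b c]`, `c3 s (IN s v) = ∑_{abc} 1[LT' s v a b c]`, so their sum over `v` is
`nW`; `∑ v, wv s v ≤ nW`. So `∑_v (m v/(ξ n) + (c3 + c3)/(ξ n^3) + wv/(ξ n^3)) ≤ 3 n`: some `v` has the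
summand `≤ 3`. -/
def StCHV : Prop :=
  ∀ (n : ℕ) (s : Fin n → Fin n → ℤ) (ξ : ℝ), 1 ≤ n → 0 < ξ → Circ s →
    (mis s : ℝ) ≤ ξ * (n : ℝ) ^ 2 → nW s ≤ ξ * (n : ℝ) ^ 4 →
    ∃ v : Fin n, (n : ℝ) - 1 ≤ (ON s v).card + (IN s v).card + 3 * ξ * n ∧
      (ON s v).card = (IN s v).card ∧ (c3 s (ON s v) : ℝ) ≤ 3 * ξ * (n : ℝ) ^ 3 ∧
      (c3 s (IN s v) : ℝ) ≤ 3 * ξ * (n : ℝ) ^ 3 ∧ (wv s v : ℝ) ≤ 3 * ξ * (n : ℝ) ^ 3

/-- PRM. An injective key: `0` at `v`, then `P` by `ρP`, then `Q` by `ρQ`, then the rest; `π x` = number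
of vertices with smaller key. -/
def StPRM : Prop :=
  ∀ (n : ℕ) (v : Fin n) (P Q : Finset (Fin n)) (ρP ρQ : Fin n → ℕ), v ∉ P → v ∉ Q →
    Disjoint P Q → (∀ x ∈ P, ∀ y ∈ P, ρP x = ρP y → x = y) →
    (∀ x ∈ Q, ∀ y ∈ Q, ρQ x = ρQ y → x = y) →
    ∃ π : Equiv.Perm (Fin n), (π v).val = 0 ∧ (∀ x ∈ P, (π x).val = 1 + rk P ρP x) ∧
      ∀ x ∈ Q, (π x).val = 1 + P.card + rk Q ρQ x

/-- INV. Let `j = |S|`, `x` = number of `w ∈ S` with rank `≥ j`. The ranks are a bijection of `Q` to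
`{0, .., |Q|-1}`, so `j` elements have rank `< j`, `j - x` of them in `S`, so `x` not in `S`, at least
`x - μ` of them in `S'`; all pairs (such `w`, such `u`) are inversions: `x (x - μ) ≤ inv`, so
`x ≤ sqrt inv + μ`. -/
def StINV : Prop :=
  ∀ (n : ℕ) (Q S S' : Finset (Fin n)) (ρ : Fin n → ℕ), S ⊆ Q → S' ⊆ Q → Disjoint S S' →
    (∀ x ∈ Q, ∀ y ∈ Q, ρ x = ρ y → x = y) →
    ((S.filter fun w => S.card ≤ rk Q ρ w).card : ℝ) ≤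
      Real.sqrt (((S ×ˢ S').filter fun p => ρ p.2 < ρ p.1).card : ℝ) +
        ((Q.card : ℝ) - S.card - S'.card) ∧
    ((S'.filter fun u => rk Q ρ u < S.card).card : ℝ) ≤
      Real.sqrt (((S ×ˢ S').filter fun p => ρ p.2 < ρ p.1).card : ℝ) +
        ((Q.card : ℝ) - S.card - S'.card)

/-- HLF (the arcs between `P = ON s v` and `Q = IN s v` form a half graph). For `a ∈ P` put `S = {w ∈ Q : s a w = 1}`,
`S' = {u ∈ Q : s u a = 1}`, `μ_a = |Q| - |S| - |S'|`, `m_a = n - 1 - 2 od a` (missing pairs at `a`), `μ_a ≤ m_a`,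
`∑ m_a = mis`. INVERSIONS: `(w, u) ∈ S × S'` with `ρQ u < ρQ w`: if `s u w = 1` then `WT s u v a w`
(`u → v`, `u → a`, `u → w`, `v → a → w → v`), otherwise `(u, w)` is counted in `bw s Q ρQ`. So
`∑_a inv_a ≤ wv + n bw ≤ 2 κ n^3`, `∑_a sqrt inv_a ≤ sqrt (n ∑ inv_a) ≤ sqrt (2 κ) n^2`. THRESHOLD:
`h_a = n/2 - |P| + rk P a`; `|S| = od a - |{b ∈ P : s a b = 1}| - (out-neighbours outside P ∪ Q ∪ {v})`, the
last number is at most `n - 1 - |P| - |Q| ≤ κ n`, and `| |{b ∈ P : s a b = 1}| - (|P| - 1 - rk P a) | ≤ β_a`,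
`β_a` = number of pairs counted by `bw s P ρP` which contain `a` (`∑ β_a ≤ 2 κ n^2`), `od a = (n-1)/2 - m_a/2`. So
`| |S| - h_a | ≤ m_a + β_a + κ n + 2`. COUNT: the `u ∈ Q` with `¬ (s a u = 1 ↔ rk Q u < h_a)` are in `S` with
rank `≥ |S|`, in `S'` with rank `< |S|`, missing, or have rank between `|S|` and `h_a`: at most
`2 sqrt inv_a + 3 μ_a + | |S| - h_a | + 2` by INV. The second count is the same with `rk Q u > h_a`. -/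
def StHLF : Prop :=
  StINV → ∀ ε : ℝ, 0 < ε → ∃ (κ : ℝ) (n0 : ℕ), 0 < κ ∧ ∀ n : ℕ, n0 ≤ n →
    ∀ (s : Fin n → Fin n → ℤ) (v : Fin n) (ρP ρQ : Fin n → ℕ), Circ s →
      (mis s : ℝ) ≤ κ * (n : ℝ) ^ 2 →
      (n : ℝ) - 1 ≤ (ON s v).card + (IN s v).card + κ * n →
      (wv s v : ℝ) ≤ κ * (n : ℝ) ^ 3 →
      (∀ x ∈ ON s v, ∀ y ∈ ON s v, ρP x = ρP y → x = y) →
      (∀ x ∈ IN s v, ∀ y ∈ IN s v, ρQ x = ρQ y → x = y) →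
      (bw s (ON s v) ρP : ℝ) ≤ κ * (n : ℝ) ^ 2 → (bw s (IN s v) ρQ : ℝ) ≤ κ * (n : ℝ) ^ 2 →
      ((((ON s v) ×ˢ (IN s v)).filter fun p => ¬ (s p.1 p.2 = 1 ↔
        2 * ((ON s v).card + rk (IN s v) ρQ p.2) < n + 2 * rk (ON s v) ρP p.1)).card : ℝ)
        ≤ ε * (n : ℝ) ^ 2 ∧
      ((((ON s v) ×ˢ (IN s v)).filter fun p => ¬ (s p.2 p.1 = 1 ↔
        n + 2 * rk (ON s v) ρP p.1 < 2 * ((ON s v).card + rk (IN s v) ρQ p.2))).card : ℝ)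
        ≤ ε * (n : ℝ) ^ 2

/-- FIN (the final count). `P = ON s v`, `Q = IN s v`, `π` from PRM. Pairs with an entry outside `P ∪ Q`: at most
`2 n (1 + 3 κ n)`... (`n - |P| - |Q| ≤ 1 + κ n` such vertices). `(x, y) ∈ P × P` with `π x < π y`:
`0 < π y - π x < |P| ≤ (n-1)/2`, so `circ (π x) (π y)` and not `circ (π y) (π x)`; a disagreement of
`(x, y)` or of `(y, x)` implies `s x y ≠ 1`, counted by `bw`. The same for `Q`. `(a, u) ∈ P × Q`: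
`π u - π a = |P| + rk Q u - rk P a` is between `1` and `n - 1`; `circ (π a) (π u)` iff twice this is `< n`,
`circ (π u) (π a)` iff it is `> n`: the two counts of HLF. Total at most
`2 n (1 + κ n) + 4 κ n^2 + 2 ε' n^2 ≤ ε n^2`, `ε' = ε/8`, `κ ≤ ε/16`, `n` large. -/
def StFIN : Prop :=
  StPRM → ∀ (n : ℕ) (s : Fin n → Fin n → ℤ) (v : Fin n) (ρP ρQ : Fin n → ℕ) (κ ε' : ℝ),
    Circ s → 0 ≤ κ → 0 ≤ ε' →
    (n : ℝ) - 1 ≤ (ON s v).card + (IN s v).card + κ * n →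
    (ON s v).card = (IN s v).card →
    (∀ x ∈ ON s v, ∀ y ∈ ON s v, ρP x = ρP y → x = y) →
    (∀ x ∈ IN s v, ∀ y ∈ IN s v, ρQ x = ρQ y → x = y) →
    (bw s (ON s v) ρP : ℝ) ≤ κ * (n : ℝ) ^ 2 → (bw s (IN s v) ρQ : ℝ) ≤ κ * (n : ℝ) ^ 2 →
    ((((ON s v) ×ˢ (IN s v)).filter fun p => ¬ (s p.1 p.2 = 1 ↔
      2 * ((ON s v).card + rk (IN s v) ρQ p.2) < n + 2 * rk (ON s v) ρP p.1)).card : ℝ)
      ≤ ε' * (n : ℝ) ^ 2 →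
    ((((ON s v) ×ˢ (IN s v)).filter fun p => ¬ (s p.2 p.1 = 1 ↔
      n + 2 * rk (ON s v) ρP p.1 < 2 * ((ON s v).card + rk (IN s v) ρQ p.2))).card : ℝ)
      ≤ ε' * (n : ℝ) ^ 2 →
    ∃ π : Equiv.Perm (Fin n), ((univ.filter fun p : Fin n × Fin n => p.1 ≠ p.2 ∧
      ¬ (s p.1 p.2 = 1 ↔ circ (π p.1) (π p.2))).card : ℝ) ≤
      (6 * κ + 2 * ε') * (n : ℝ) ^ 2 + 2 * n

/-- The structure theorem. -/
def STRP : Prop :=
  ∀ ε : ℝ, 0 < ε → ∃ (ξ : ℝ) (n0 : ℕ), 0 < ξ ∧ ∀ n : ℕ, n0 ≤ n →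
    ∀ s : Fin n → Fin n → ℤ, Circ s → (mis s : ℝ) ≤ ξ * (n : ℝ) ^ 2 → nW s ≤ ξ * (n : ℝ) ^ 4 →
      ∃ π : Equiv.Perm (Fin n), ((univ.filter fun p : Fin n × Fin n => p.1 ≠ p.2 ∧
        ¬ (s p.1 p.2 = 1 ↔ circ (π p.1) (π p.2))).card : ℝ) ≤ ε * (n : ℝ) ^ 2

/-- STR (assembly of part S). HLF with `ε/8` gives `κ`; `κ' = min κ (ε/24)`; ORD with `κ'` gives `ξ'`;
`ξ = min (ξ'/3) (κ'/3)`; CHV with `ξ`; ORD for `ON s v` and `IN s v`; HLF; FIN: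
`6 κ' + 2 ε/8 ≤ ε/2`, and `2 n ≤ ε/2 n^2` for large `n`. -/
def StSTR : Prop :=
  (∀ ε : ℝ, 0 < ε → ∃ (ξ : ℝ) (n0 : ℕ), 0 < ξ ∧ ∀ n : ℕ, n0 ≤ n →
    ∀ (s : Fin n → Fin n → ℤ) (S : Finset (Fin n)), Circ s → (c3 s S : ℝ) ≤ ξ * (n : ℝ) ^ 3 →
      (mis s : ℝ) ≤ ξ * (n : ℝ) ^ 2 →
      ∃ ρ : Fin n → ℕ, (∀ x ∈ S, ∀ y ∈ S, ρ x = ρ y → x = y) ∧
        (bw s S ρ : ℝ) ≤ ε * (n : ℝ) ^ 2) →
  StCHV → StINV → StHLF → StPRM → StFIN → STRP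

end Pool.Agent.Helper30.SY
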